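import Pool.Agent.Y320.CM.Stm

/-!
# The word metric of a finitely generated hyperbolic group
-/

set_option autoImplicit false

open Pool.Agent.Y320.CM

namespace Pool.Agent.Y37.CM

variable {G : Type} [Group G]

/-- the Cayley graph -/
abbrev Γ (S : Finset G) : SimpleGraph G := SimpleGraph.fromRel (fun a b : G => a⁻¹ * b ∈ S)

/-- left translations -/
def tr (S : Finset G) (g : G) : Γ S ≃g Γ S where
  toEquiv := Equiv.mulLeft g
  map_rel_iff' := by
    intro a b
    simp only [Equiv.coe_mulLeft, SimpleGraph.fromRel_adj]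
    have h1 : (g * a)⁻¹ * (g * b) = a⁻¹ * b := by group
    have h2 : (g * b)⁻¹ * (g * a) = b⁻¹ * a := by group
    rw [h1, h2]
    exact and_congr_left fun _ => (mul_right_injective g).ne_iff

lemma tr_reach (S : Finset G) (g : G) {x y : G} (h : (Γ S).Reachable x y) :
    (Γ S).Reachable (g * x) (g * y) := h.map (tr S g).toHom

lemma conn (S : Finset G) (hS : Subgroup.closure (S : Set G) = ⊤) : (Γ S).Connected := by
  have h1 : ∀ g : G, (Γ S).Reachable 1 g := by
    intro g
    have hg : g ∈ Subgroup.closure (S : Set G) := by rw [hS]; exact Subgroup.mem_top g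
    induction hg using Subgroup.closure_induction with
    | mem s hs =>
      by_cases h : (1 : G) = s
      · rw [← h]
      · refine SimpleGraph.Adj.reachable ?_
        rw [SimpleGraph.fromRel_adj]
        refine ⟨h, Or.inl ?_⟩
        rw [inv_one, one_mul]
        exact hs
    | one => exact SimpleGraph.Reachable.refl _
    | mul x y _ _ hx hy =>
      have h2 := tr_reach S x hy
      rw [mul_one] at h2
      exact hx.trans h2
    | inv x _ hx =>
      have h2 := tr_reach S x⁻¹ hx
      rw [mul_one, inv_mul_cancel] at h2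
      exact h2.symm
  exact ⟨fun x y => (h1 x).symm.trans (h1 y)⟩

lemma dist_tr_le (S : Finset G) (hS : Subgroup.closure (S : Set G) = ⊤) (g x y : G) :
    (Γ S).dist (g * x) (g * y) ≤ (Γ S).dist x y := by
  obtain ⟨p, hp⟩ := (conn S hS).exists_walk_length_eq_dist x y
  have h1 := SimpleGraph.dist_le (p.map (tr S g).toHom)
  rw [SimpleGraph.Walk.length_map, hp] at h1
  exact h1

lemma dist_tr (S : Finset G) (hS : Subgroup.closure (S : Set G) = ⊤) (g x y : G) :
    (Γ S).dist (g * x) (g * y) = (Γ S).dist x y := by
  refine le_antisymm (dist_tr_le S hS g x y) ?_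
  have h := dist_tr_le S hS g⁻¹ (g * x) (g * y)
  rwa [inv_mul_cancel_left, inv_mul_cancel_left] at h

lemma fin_ball (S : Finset G) (hS : Subgroup.closure (S : Set G) = ⊤) (n : ℕ) :
    {g : G | (Γ S).dist 1 g ≤ n}.Finite := by
  induction n with
  | zero =>
    refine (Set.finite_singleton (1 : G)).subset fun g hg => ?_
    have h1 : (Γ S).dist 1 g = 0 := Nat.le_zero.1 hg
    exact ((conn S hS).dist_eq_zero_iff.1 h1).symm
  | succ n ih =>
    have hT : ((S : Set G) ∪ (S : Set G)⁻¹).Finite :=
      (Finset.finite_toSet S).union (Finset.finite_toSet S).inv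
    refine (ih.union (ih.image2 (fun a b : G => a * b) hT)).subset fun g hg => ?_
    rw [Set.mem_ofPred_eq] at hg
    rcases Nat.lt_or_ge ((Γ S).dist 1 g) (n + 1) with h | h
    · exact Or.inl (Nat.lt_succ_iff.1 h)
    · right
      have hd : (Γ S).dist 1 g = n + 1 := le_antisymm hg h
      obtain ⟨p, hp⟩ := (conn S hS).exists_walk_length_eq_dist 1 g
      rw [hd] at hp
      have hadj := p.adj_getVert_succ (i := n) (by omega)
      have hend : p.getVert (n + 1) = g := by rw [← hp]; exact p.getVert_length
      rw [hend, SimpleGraph.fromRel_adj] at hadj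
      have h2 : (Γ S).dist 1 (p.getVert n) ≤ n := by
        refine (SimpleGraph.dist_le (p.take n)).trans ?_
        rw [SimpleGraph.Walk.take_length]
        exact min_le_left _ _
      refine ⟨p.getVert n, h2, (p.getVert n)⁻¹ * g, ?_, mul_inv_cancel_left _ _⟩
      rcases hadj.2 with h3 | h3
      · exact Or.inl h3
      · right
        rw [Set.mem_inv, mul_inv_rev, inv_inv]
        exact h3

theorem t_CAY : S_CAY := by
  intro G _ S hS d hd' ⟨δ, hδ⟩
  have hd : ∀ x y, d x y = ((Γ S).dist x y : ℝ) := hd'
  have hc := conn S hS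
  have hself : ∀ x, d x x = 0 := fun x => by rw [hd, SimpleGraph.dist_self, Nat.cast_zero]
  refine ⟨δ, ?_⟩
  refine
    { nat := fun x y => ⟨_, hd x y⟩
      self := hself
      eq := fun x y h => ?_
      symm := fun x y => by rw [hd, hd, SimpleGraph.dist_comm]
      tri := fun x y z => ?_
      left := fun g x y => ?_
      fin := fun r => ?_
      geo := fun x y n hn => ?_
      nonneg := ?_
      hyp := fun w x y z => ?_ }
  · rw [hd, Nat.cast_eq_zero] at h
    exact hc.dist_eq_zero_iff.1 h
  · rw [hd, hd, hd]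
    exact_mod_cast hc.dist_triangle
  · rw [hd, hd, dist_tr S hS]
  · refine (fin_ball S hS ⌊r⌋₊).subset fun g hg => ?_
    rw [Set.mem_ofPred_eq, hd] at hg
    exact Nat.le_floor hg
  · rw [hd, Nat.cast_le] at hn
    obtain ⟨p, hp⟩ := hc.exists_walk_length_eq_dist x y
    have h1 : (Γ S).dist x (p.getVert n) ≤ n := by
      refine (SimpleGraph.dist_le (p.take n)).trans ?_
      rw [SimpleGraph.Walk.take_length]
      exact min_le_left _ _
    have h2 : (Γ S).dist (p.getVert n) y ≤ (Γ S).dist x y - n := by
      refine (SimpleGraph.dist_le (p.drop n)).trans ?_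
      rw [SimpleGraph.Walk.drop_length, hp]
    have h3 : (Γ S).dist x y ≤ (Γ S).dist x (p.getVert n) + (Γ S).dist (p.getVert n) y :=
      hc.dist_triangle
    refine ⟨p.getVert n, ?_, ?_⟩
    · rw [hd]
      have : (Γ S).dist x (p.getVert n) = n := by omega
      rw [this]
    · rw [hd, hd]
      have : (Γ S).dist (p.getVert n) y = (Γ S).dist x y - n := by omega
      rw [this, Nat.cast_sub hn]
  · have h := hδ 1 1 1 1
    rw [hself] at h
    norm_num at h
    exact h
  · have h := hδ w x y z
    unfold gp
    rw [min_div_div_right (by norm_num : (0 : ℝ) ≤ 2)]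
    exact h

end Pool.Agent.Y37.CM
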