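import Pool.Agent.Y320.CM.Stm

/-!
# Neighbourhoods and the action on the boundary
-/

set_option autoImplicit false

open Filter Topology Pool.Agent.Y320.CM

namespace Pool.Agent.Y37.CM

section

variable {G : Type} [Group G] {d : G → G → ℝ}

lemma near_mono {K K' : ℝ} (h : K' ≤ K) {x y : ℕ → G} (hN : Near d K x y) : Near d K' x y := by
  obtain ⟨M, hM⟩ := hN
  exact ⟨M, fun i j hi hj => h.trans (hM i j hi hj)⟩

lemma gp_left {δ : ℝ} (hH : HypD G d δ) (g x y : G) :
    gp d 1 x y - d 1 g ≤ gp d 1 (g * x) (g * y) := by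
  have h0 : d 1 g⁻¹ = d 1 g := by
    rw [← hH.left g 1 g⁻¹, mul_one, mul_inv_cancel, hH.symm]
  have h1 : ∀ z : G, d 1 z ≤ d 1 g + d 1 (g * z) := by
    intro z
    have h2 := hH.tri 1 g⁻¹ z
    rw [h0, ← hH.left g g⁻¹ z, mul_inv_cancel] at h2
    exact h2
  have h2 := h1 x
  have h3 := h1 y
  unfold gp
  rw [hH.left]
  linarith

lemma near_left {δ : ℝ} (hH : HypD G d δ) (g : G) {K : ℝ} {x y : ℕ → G} (h : Near d (K + d 1 g) x y) :
    Near d K (fun i => g * x i) (fun i => g * y i) := by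
  obtain ⟨M, hM⟩ := h
  refine ⟨M, fun i j hi hj => ?_⟩
  have h1 := hM i j hi hj
  have h2 := gp_left hH g (x i) (y j)
  linarith

lemma CI_left {δ : ℝ} (hH : HypD G d δ) (g : G) {x : ℕ → G} (h : CI d x) :
    CI d (fun i => g * x i) := fun K => near_left hH g (h (K + d 1 g))

end

theorem t_NHD : S_NHD := by
  intro G _ d δ φ hH hB y hy
  constructor
  · intro K
    by_contra hK
    rw [Metric.mem_nhds_iff] at hK
    push Not at hK
    have h1 : ∀ n : ℕ, ∃ x, CI d x ∧ dist (φ x) (φ y) < 1 / ((n : ℝ) + 1) ∧ ¬ Near d K x y := by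
      intro n
      have h2 := hK (1 / ((n : ℝ) + 1)) (by positivity)
      rw [Set.not_subset] at h2
      obtain ⟨p, hp, hpn⟩ := h2
      obtain ⟨x, hx, rfl⟩ := hB.surj p
      exact ⟨x, hx, Metric.mem_ball.1 hp, fun hN => hpn ⟨x, hx, rfl, hN⟩⟩
    choose X hX hXd hXn using h1
    have h2 : Tendsto (fun n => φ (X n)) atTop (𝓝 (φ y)) := by
      rw [tendsto_iff_dist_tendsto_zero]
      exact squeeze_zero (fun _ => dist_nonneg) (fun n => (hXd n).le)
        tendsto_one_div_add_atTop_nhds_zero_nat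
    obtain ⟨n, hn⟩ := ((hB.top X y hX hy).1 h2 K).exists
    exact hXn n hn
  · intro O hO
    by_contra hK
    push Not at hK
    have h1 : ∀ n : ℕ, ∃ x, CI d x ∧ Near d (n : ℝ) x y ∧ φ x ∉ O := fun n => hK n
    choose X hX hXN hXO using h1
    have h2 : Tendsto (fun n => φ (X n)) atTop (𝓝 (φ y)) := by
      refine (hB.top X y hX hy).2 fun K => ?_
      filter_upwards [eventually_ge_atTop ⌈K⌉₊] with n hn
      exact near_mono ((Nat.le_ceil K).trans (by exact_mod_cast hn)) (hXN n)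
    obtain ⟨n, hn⟩ := (h2.eventually hO).exists
    exact hXO n hn

theorem t_ACTC : S_ACTC := by
  intro G _ d δ φ τ hH hB hE
  refine ⟨fun g x hx => CI_left hH g hx, fun x => ?_, fun g h x => ?_, fun g => ?_⟩
  · obtain ⟨y, hy, rfl⟩ := hB.surj x
    rw [hE 1 y hy]
    simp only [one_mul]
  · obtain ⟨y, hy, rfl⟩ := hB.surj x
    rw [hE (g * h) y hy, hE h y hy, hE g _ (CI_left hH h hy)]
    simp only [mul_assoc]
  · rw [continuous_iff_continuousAt]
    intro p
    obtain ⟨y, hy, rfl⟩ := hB.surj p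
    intro O hO
    rw [hE g y hy] at hO
    obtain ⟨K, hK⟩ := (t_NHD G d δ φ hH hB _ (CI_left hH g hy)).2 O hO
    have h1 := (t_NHD G d δ φ hH hB y hy).1 (K + d 1 g)
    refine Filter.mem_map.2 (Filter.mem_of_superset h1 ?_)
    rintro q ⟨x, hx, rfl, hN⟩
    rw [Set.mem_preimage, hE g x hx]
    exact hK _ (CI_left hH g hx) (near_left hH g hN)

end Pool.Agent.Y37.CM
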